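import Mathlib

set_option autoImplicit false

namespace Pool.Agent.H625J.PPSeq

open Finset

section seq

variable {V : Type} [AddCommGroup V]

theorem card_sd (S T : Finset ℕ) : (symmDiff S T).card + 2 * (S ∩ T).card = S.card + T.card := by
  have h1 : symmDiff S T = (S \ T) ∪ (T \ S) := rfl
  have h2 : Disjoint (S \ T) (T \ S) := disjoint_sdiff_sdiff
  rw [h1, card_union_of_disjoint h2]
  have h3 := card_sdiff_add_card_inter S T
  have h4 := card_sdiff_add_card_inter T S
  rw [inter_comm] at h4
  omega

theorem sum_sd (h2 : ∀ v : V, v + v = 0) (x : ℕ → V) (S T : Finset ℕ) :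
    ∑ i ∈ symmDiff S T, x i = ∑ i ∈ S, x i + ∑ i ∈ T, x i := by
  have h1 : symmDiff S T = (S \ T) ∪ (T \ S) := rfl
  have hd : Disjoint (S \ T) (T \ S) := disjoint_sdiff_sdiff
  rw [h1, sum_union hd, ← sum_inter_add_sum_sdiff S T x, ← sum_inter_add_sum_sdiff T S x,
    inter_comm T S]
  have h3 := h2 (∑ i ∈ S ∩ T, x i)
  have h4 : ∑ i ∈ S ∩ T, x i + ∑ i ∈ S \ T, x i + (∑ i ∈ S ∩ T, x i + ∑ i ∈ T \ S, x i) =
      (∑ i ∈ S ∩ T, x i + ∑ i ∈ S ∩ T, x i) + (∑ i ∈ S \ T, x i + ∑ i ∈ T \ S, x i) := by abel
  rw [h4, h3, zero_add]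

theorem eq_of_add_eq_zero' (h2 : ∀ v : V, v + v = 0) {a b : V} (h : a + b = 0) : a = b := by
  have h3 := h2 b
  have : a + b = b + b := by rw [h, h3]
  exact add_right_cancel this

section main

variable [DecidableEq V] (x : ℕ → V)

/-- sums over even subsets of the first `t` indices -/
def Et (t : ℕ) : Finset V :=
  ((range t).powerset.filter (fun T => Even T.card)).image (fun T => ∑ i ∈ T, x i)

/-- differences at distance at most `l` among the first `t` points -/
def Dt (l t : ℕ) : Finset V :=
  ((range t ×ˢ range t).filter (fun p => p.1 < p.2 ∧ p.2 ≤ p.1 + l)).image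
    (fun p => x p.1 + x p.2)

/-- affine dependence of the point number `t` on the previous ones -/
def Dep (t : ℕ) : Prop := ∃ I ⊆ range t, Odd I.card ∧ x t = ∑ i ∈ I, x i

/-- affine independence of the first `t` points -/
def Ind (t : ℕ) : Prop := ∀ T ⊆ range t, Even T.card → ∑ i ∈ T, x i = 0 → T = ∅

theorem mem_Et {t : ℕ} {v : V} :
    v ∈ Et x t ↔ ∃ T ⊆ range t, Even T.card ∧ ∑ i ∈ T, x i = v := by
  unfold Et
  simp only [mem_image, mem_filter, mem_powerset]
  constructor
  · rintro ⟨T, ⟨h1, h2⟩, h3⟩
    exact ⟨T, h1, h2, h3⟩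
  · rintro ⟨T, h1, h2, h3⟩
    exact ⟨T, ⟨h1, h2⟩, h3⟩

theorem mem_Dt {l t : ℕ} {v : V} :
    v ∈ Dt x l t ↔ ∃ i j, i < j ∧ j < t ∧ j ≤ i + l ∧ x i + x j = v := by
  unfold Dt
  simp only [mem_image, mem_filter, mem_product, mem_range, Prod.exists]
  constructor
  · rintro ⟨i, j, ⟨⟨_, h1⟩, h2, h3⟩, h4⟩
    exact ⟨i, j, h2, h1, h3, h4⟩
  · rintro ⟨i, j, h2, h1, h3, h4⟩
    exact ⟨i, j, ⟨⟨by omega, h1⟩, h2, h3⟩, h4⟩

theorem Dt_subset_Et {l t : ℕ} : Dt x l t ⊆ Et x t := by
  intro v hv
  obtain ⟨i, j, h1, h2, _, h4⟩ := (mem_Dt x).1 hv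
  refine (mem_Et x).2 ⟨{i, j}, ?_, ?_, ?_⟩
  · intro a ha
    rw [mem_insert, mem_singleton] at ha
    rw [mem_range]
    omega
  · rw [card_pair (by omega)]
    exact even_two
  · rw [sum_pair (by omega), h4]

theorem Dt_mono {l t : ℕ} : Dt x l t ⊆ Dt x l (t + 1) := by
  intro v hv
  obtain ⟨i, j, h1, h2, h3, h4⟩ := (mem_Dt x).1 hv
  exact (mem_Dt x).2 ⟨i, j, h1, by omega, h3, h4⟩

/-- the new differences at step `t` -/
theorem new_mem {l t j : ℕ} (h1 : 1 ≤ j) (h2 : j ≤ min l t) :
    x (t - j) + x t ∈ Dt x l (t + 1) := by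
  have h3 : j ≤ l := h2.trans (min_le_left _ _)
  have h4 : j ≤ t := h2.trans (min_le_right _ _)
  exact (mem_Dt x).2 ⟨t - j, t, by omega, by omega, by omega, rfl⟩

theorem parity_sd {S T : Finset ℕ} : Even (symmDiff S T).card ↔ (Even S.card ↔ Even T.card) := by
  have h := card_sd S T
  have h3 : Even ((symmDiff S T).card + 2 * (S ∩ T).card) ↔ Even (S.card + T.card) := by rw [h]
  rw [Nat.even_add, Nat.even_add] at h3
  have h4 : Even (2 * (S ∩ T).card) := even_two_mul _
  tauto

theorem sd_sub {t : ℕ} {S T : Finset ℕ} (hS : S ⊆ range t) (hT : T ⊆ range t) :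
    symmDiff S T ⊆ range t := by
  intro a ha
  rw [mem_symmDiff] at ha
  rcases ha with ⟨h, _⟩ | ⟨h, _⟩
  · exact hS h
  · exact hT h

theorem dep_of_mem (h2 : ∀ v : V, v + v = 0) {t i : ℕ} (hi : i < t) (h : x i + x t ∈ Et x t) :
    Dep x t := by
  obtain ⟨T, hT, hTe, hTs⟩ := (mem_Et x).1 h
  refine ⟨symmDiff T {i}, sd_sub hT (by intro a ha; rw [mem_singleton] at ha; rw [mem_range]; omega),
    ?_, ?_⟩
  · rw [← Nat.not_even_iff_odd, parity_sd, card_singleton]
    have : ¬ Even 1 := by decide
    tauto
  · rw [sum_sd h2, hTs, sum_singleton]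
    have h3 := h2 (x i)
    calc x t = (x i + x i) + x t := by rw [h3, zero_add]
      _ = x i + x t + x i := by abel

/-- step with an independent point: number of differences -/
theorem card_step_indep (h2 : ∀ v : V, v + v = 0) {l t : ℕ}
    (hinj : ∀ i ≤ t, ∀ j ≤ t, x i = x j → i = j) (hd : ¬ Dep x t) :
    (Dt x l t).card + min l t ≤ (Dt x l (t + 1)).card := by
  have h1 : ((Icc 1 (min l t)).image fun j => x (t - j) + x t).card = min l t := by
    rw [card_image_of_injOn, Nat.card_Icc]
    · omega
    · intro j hj j' hj' hjj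
      rw [mem_coe, mem_Icc] at hj hj'
      have h3 := add_right_cancel hjj
      have h4 : min l t ≤ t := min_le_right _ _
      have := hinj (t - j) (by omega) (t - j') (by omega) h3
      omega
  have h3 : Disjoint (Dt x l t) ((Icc 1 (min l t)).image fun j => x (t - j) + x t) := by
    rw [disjoint_left]
    intro v hv hv'
    obtain ⟨j, hj, rfl⟩ := mem_image.1 hv'
    rw [mem_Icc] at hj
    have h4 : min l t ≤ t := min_le_right _ _
    exact hd (dep_of_mem x h2 (i := t - j) (by omega) (Dt_subset_Et x hv))
  rw [← h1, ← card_union_of_disjoint h3]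
  refine card_le_card (union_subset (Dt_mono x) ?_)
  intro v hv
  obtain ⟨j, hj, rfl⟩ := mem_image.1 hv
  rw [mem_Icc] at hj
  exact new_mem x hj.1 hj.2

theorem Ind_succ {t : ℕ} (h : Ind x t) (h2 : ∀ v : V, v + v = 0) (hd : ¬ Dep x t) :
    Ind x (t + 1) := by
  intro T hT hTe hTs
  by_cases ht : t ∈ T
  · exfalso
    apply hd
    refine ⟨T.erase t, ?_, ?_, ?_⟩
    · intro a ha
      rw [mem_erase] at ha
      have := mem_range.1 (hT ha.2)
      rw [mem_range]
      omega
    · have h3 := card_erase_add_one ht
      rw [← Nat.not_even_iff_odd]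
      intro h4
      rw [← h3, Nat.even_add_one] at hTe
      exact hTe h4
    · have h3 := add_sum_erase T x ht
      rw [hTs] at h3
      exact eq_of_add_eq_zero' h2 h3
  · refine h T ?_ hTe hTs
    intro a ha
    have := mem_range.1 (hT ha)
    rw [mem_range]
    have : a ≠ t := fun h => ht (h ▸ ha)
    omega

theorem Et_card_succ (h2 : ∀ v : V, v + v = 0) {t : ℕ} (ht : 1 ≤ t) :
    (Et x (t + 1)).card ≤ 2 * (Et x t).card := by
  have h1 : Et x (t + 1) ⊆ Et x t ∪ (Et x t).image (fun v => v + (x t + x 0)) := by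
    intro v hv
    obtain ⟨T, hT, hTe, hTs⟩ := (mem_Et x).1 hv
    by_cases htT : t ∈ T
    · apply mem_union_right
      rw [mem_image]
      refine ⟨∑ i ∈ symmDiff (T.erase t) {0}, x i, (mem_Et x).2 ⟨_, sd_sub ?_ ?_, ?_, rfl⟩, ?_⟩
      · intro a ha
        rw [mem_erase] at ha
        have := mem_range.1 (hT ha.2)
        rw [mem_range]
        omega
      · intro a ha
        rw [mem_singleton] at ha
        rw [mem_range]
        omega
      · have h3 := card_erase_add_one htT
        rw [← h3, Nat.even_add_one] at hTe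
        rw [parity_sd, card_singleton]
        have : ¬ Even 1 := by decide
        tauto
      · rw [sum_sd h2, sum_singleton, ← hTs, ← add_sum_erase T x htT]
        have h3 := h2 (x 0)
        calc ∑ i ∈ T.erase t, x i + x 0 + (x t + x 0)
            = x t + ∑ i ∈ T.erase t, x i + (x 0 + x 0) := by abel
          _ = _ := by rw [h3, add_zero]
    · apply mem_union_left
      refine (mem_Et x).2 ⟨T, ?_, hTe, hTs⟩
      intro a ha
      have := mem_range.1 (hT ha)
      rw [mem_range]
      have : a ≠ t := fun h => htT (h ▸ ha)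
      omega
  refine (card_le_card h1).trans ((card_union_le _ _).trans ?_)
  have := card_image_le (s := Et x t) (f := fun v => v + (x t + x 0))
  omega

theorem Et_dep (h2 : ∀ v : V, v + v = 0) {t : ℕ} (hd : Dep x t) : Et x (t + 1) ⊆ Et x t := by
  obtain ⟨I, hI, hIo, hIs⟩ := hd
  intro v hv
  obtain ⟨T, hT, hTe, hTs⟩ := (mem_Et x).1 hv
  by_cases htT : t ∈ T
  · refine (mem_Et x).2 ⟨symmDiff I (T.erase t), sd_sub hI ?_, ?_, ?_⟩
    · intro a ha
      rw [mem_erase] at ha
      have := mem_range.1 (hT ha.2)
      rw [mem_range]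
      omega
    · have h3 := card_erase_add_one htT
      rw [← h3, Nat.even_add_one] at hTe
      rw [parity_sd]
      rw [← Nat.not_even_iff_odd] at hIo
      tauto
    · rw [sum_sd h2, ← hIs, ← hTs, ← add_sum_erase T x htT]
  · refine (mem_Et x).2 ⟨T, ?_, hTe, hTs⟩
    intro a ha
    have := mem_range.1 (hT ha)
    rw [mem_range]
    have : a ≠ t := fun h => htT (h ▸ ha)
    omega

/-- the first dependent point brings at least `min l t - 3` new differences -/
theorem card_step_first (h2 : ∀ v : V, v + v = 0) {l t : ℕ}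
    (hinj : ∀ i ≤ t, ∀ j ≤ t, x i = x j → i = j) (hind : Ind x t) (hd : Dep x t) :
    (Dt x l t).card + (min l t - 3) ≤ (Dt x l (t + 1)).card := by
  classical
  obtain ⟨I, hI, hIo, hIs⟩ := hd
  set J := (Icc 1 (min l t)).filter (fun j => x (t - j) + x t ∈ Dt x l t) with hJ
  have hmin : min l t ≤ t := min_le_right _ _
  have hJ3 : ∀ j ∈ J, t - j ∈ I ∧ I.card = 3 := by
    intro j hj
    rw [hJ, mem_filter, mem_Icc] at hj
    obtain ⟨hj1, hj2⟩ := hj
    obtain ⟨a, b, hab, hbt, _, hs⟩ := (mem_Dt x).1 hj2
    have hsing : ({t - j} : Finset ℕ) ⊆ range t := by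
      intro c hc
      rw [mem_singleton] at hc
      rw [mem_range]
      omega
    have hpair : ({a, b} : Finset ℕ) ⊆ range t := by
      intro c hc
      rw [mem_insert, mem_singleton] at hc
      rw [mem_range]
      omega
    have hcp : ({a, b} : Finset ℕ).card = 2 := card_pair (by omega)
    have h0 : symmDiff (symmDiff I {t - j}) {a, b} = ∅ := by
      refine hind _ (sd_sub (sd_sub hI hsing) hpair) ?_ ?_
      · rw [parity_sd, parity_sd, card_singleton, hcp]
        rw [← Nat.not_even_iff_odd] at hIo
        have h1 : ¬ Even 1 := by decide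
        have h3 : Even 2 := even_two
        tauto
      · rw [sum_sd h2, sum_sd h2, sum_singleton, ← hIs, sum_pair (by omega), hs,
          add_comm (x t) (x (t - j))]
        exact h2 _
    have h5 : symmDiff I {t - j} = {a, b} := symmDiff_eq_bot.1 h0
    have h6 := card_sd I {t - j}
    rw [h5, hcp, card_singleton] at h6
    by_cases hmem : t - j ∈ I
    · rw [inter_singleton_of_mem hmem, card_singleton] at h6
      exact ⟨hmem, by omega⟩
    · exfalso
      rw [inter_singleton_of_notMem hmem, card_empty] at h6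
      have h7 : I.card = 1 := by omega
      obtain ⟨c, hc⟩ := card_eq_one.1 h7
      rw [hc, sum_singleton] at hIs
      have h8 : c < t := mem_range.1 (hI (by rw [hc]; exact mem_singleton_self c))
      have := hinj t le_rfl c h8.le hIs
      omega
  have hJcard : J.card ≤ 3 := by
    by_cases hne : J.Nonempty
    · obtain ⟨j0, hj0⟩ := hne
      rw [← (hJ3 j0 hj0).2]
      refine card_le_card_of_injOn (fun j => t - j) (fun j hj => (hJ3 j hj).1) ?_
      intro j hj j' hj' hjj
      rw [mem_coe, hJ, mem_filter, mem_Icc] at hj hj'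
      simp only at hjj
      omega
    · rw [not_nonempty_iff_eq_empty.1 hne, card_empty]
      omega
  set K := (Icc 1 (min l t)).filter (fun j => ¬ (x (t - j) + x t ∈ Dt x l t)) with hK
  have hJK : J.card + K.card = min l t := by
    rw [hJ, hK, card_filter_add_card_filter_not, Nat.card_Icc]
    omega
  have h1 : (K.image fun j => x (t - j) + x t).card = K.card := by
    rw [card_image_of_injOn]
    intro j hj j' hj' hjj
    rw [mem_coe, hK, mem_filter, mem_Icc] at hj hj'
    have h3 := add_right_cancel hjj
    have := hinj (t - j) (by omega) (t - j') (by omega) h3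
    omega
  have h3 : Disjoint (Dt x l t) (K.image fun j => x (t - j) + x t) := by
    rw [disjoint_left]
    intro v hv hv'
    obtain ⟨j, hj, rfl⟩ := mem_image.1 hv'
    rw [hK, mem_filter] at hj
    exact hj.2 hv
  have h4 : (Dt x l t ∪ K.image fun j => x (t - j) + x t).card ≤ (Dt x l (t + 1)).card := by
    refine card_le_card (union_subset (Dt_mono x) ?_)
    intro v hv
    obtain ⟨j, hj, rfl⟩ := mem_image.1 hv
    rw [hK, mem_filter, mem_Icc] at hj
    exact new_mem x hj.1.1 hj.1.2
  rw [card_union_of_disjoint h3, h1] at h4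
  omega

end main

section num

theorem num_one {l : ℕ} (hl : l ≤ 5) {d : ℕ} (hd : 2 ≤ d) :
    ∑ k ∈ range d, min l (2 ^ k) ≤ ∑ k ∈ range d, min l (k + 1) + (min l (d + 1) - 3) := by
  rcases Nat.lt_or_ge d 4 with h | h
  · interval_cases d <;> interval_cases l <;> decide
  · induction d, h using Nat.le_induction with
    | base => interval_cases l <;> decide
    | succ d h ih =>
      have ih' := ih (by omega)
      rw [sum_range_succ, sum_range_succ]
      have h1 : min l (2 ^ d) ≤ l := min_le_left _ _
      have h3 : min l (d + 1) = l := min_eq_left (by omega)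
      have h4 : min l (d + 1 + 1) = l := min_eq_left (by omega)
      rw [h3] at ih' ⊢
      rw [h4]
      omega

theorem num_two {l : ℕ} (hl : l ≤ 5) {n : ℕ} (hn : 1 ≤ n) :
    ∑ k ∈ range (Nat.clog 2 n), min l (2 ^ k) ≤ ∑ k ∈ range (n - 1), min l (k + 1) := by
  rcases Nat.lt_or_ge n 4 with h | h
  · have h3 : Nat.clog 2 1 = 0 := by norm_num
    have h4 : Nat.clog 2 2 = 1 := by norm_num
    have h5 : Nat.clog 2 3 = 2 := by norm_num
    interval_cases n
    · rw [h3]; simp
    · rw [h4]; simp
    · rw [h5]
      simp [sum_range_succ]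
  · have h1 : Nat.clog 2 n ≤ n - 2 := by
      apply Nat.clog_le_of_le_pow
      clear hn
      induction n, h using Nat.le_induction with
      | base => norm_num
      | succ n h ih =>
        have h3 : n + 1 - 2 = (n - 2) + 1 := by omega
        rw [h3, pow_succ]
        omega
    have h3 : ∑ k ∈ range (Nat.clog 2 n), min l (2 ^ k) ≤ ∑ k ∈ range (n - 2), min l (2 ^ k) :=
      sum_le_sum_of_subset (range_mono h1)
    have h4 := num_one hl (d := n - 2) (by omega)
    have h5 : n - 1 = (n - 2) + 1 := by omega
    rw [h5, sum_range_succ]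
    omega

end num

section concl

variable [DecidableEq V] (x : ℕ → V)

theorem invariant (h2 : ∀ v : V, v + v = 0) {l : ℕ} (hl : l ≤ 5) {n : ℕ}
    (hx : ∀ i < n, ∀ j < n, x i = x j → i = j) : ∀ t, 1 ≤ t → t ≤ n →
      (Ind x t ∧ ∑ k ∈ range (t - 1), min l (k + 1) ≤ (Dt x l t).card ∧
        (Et x t).card ≤ 2 ^ (t - 1)) ∨
      ∃ d, 2 ≤ d ∧ d + 2 ≤ t ∧ ∑ k ∈ range d, min l (2 ^ k) ≤ (Dt x l t).card ∧
        (Et x t).card ≤ 2 ^ d := by
  intro t ht
  induction t, ht using Nat.le_induction with
  | base =>
    intro _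
    left
    refine ⟨?_, by simp, ?_⟩
    · intro T hT hTe _
      have h3 : T.card ≤ 1 := by
        have := card_le_card hT
        rwa [card_range] at this
      have h4 : T.card ≠ 1 := fun h => by
        rw [h] at hTe
        exact absurd hTe (by decide)
      exact card_eq_zero.1 (by omega)
    · have h3 : Et x 1 ⊆ {0} := by
        intro v hv
        obtain ⟨T, hT, hTe, hTs⟩ := (mem_Et x).1 hv
        have h3 : T.card ≤ 1 := by
          have := card_le_card hT
          rwa [card_range] at this
        have h4 : T.card ≠ 1 := fun h => by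
          rw [h] at hTe
          exact absurd hTe (by decide)
        have h5 : T = ∅ := card_eq_zero.1 (by omega)
        rw [← hTs, h5, sum_empty]
        exact mem_singleton_self _
      have := card_le_card h3
      simpa using this
  | succ t ht ih =>
    intro htn
    have hinj : ∀ i ≤ t, ∀ j ≤ t, x i = x j → i = j := fun i hi j hj h =>
      hx i (by omega) j (by omega) h
    have hE2 := Et_card_succ x h2 ht
    by_cases hd : Dep x t
    · have hE := card_le_card (Et_dep x h2 hd)
      rcases ih (by omega) with ⟨h3, h4, h5⟩ | ⟨d, h3, h4, h5, h6⟩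
      · right
        -- `t ≥ 3`
        have ht3 : 3 ≤ t := by
          obtain ⟨I, hI, hIo, hIs⟩ := hd
          by_contra hlt
          have h6 : I.card ≤ 2 := by
            have := card_le_card hI
            rw [card_range] at this
            omega
          have h7 : I.card = 1 := by
            obtain ⟨m, hm⟩ := hIo
            omega
          obtain ⟨c, hc⟩ := card_eq_one.1 h7
          rw [hc, sum_singleton] at hIs
          have h8 : c < t := mem_range.1 (hI (by rw [hc]; exact mem_singleton_self c))
          have := hinj t le_rfl c h8.le hIs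
          omega
        refine ⟨t - 1, by omega, by omega, ?_, hE.trans h5⟩
        have h6 := card_step_first x h2 (l := l) hinj h3 hd
        have h7 := num_one hl (d := t - 1) (by omega)
        have h8 : t - 1 + 1 = t := by omega
        rw [h8] at h7
        omega
      · right
        exact ⟨d, h3, by omega, h5.trans (card_le_card (Dt_mono x)), hE.trans h6⟩
    · have hD := card_step_indep x h2 (l := l) hinj hd
      rcases ih (by omega) with ⟨h3, h4, h5⟩ | ⟨d, h3, h4, h5, h6⟩
      · left
        refine ⟨Ind_succ x h3 h2 hd, ?_, ?_⟩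
        · have h8 : t + 1 - 1 = (t - 1) + 1 := by omega
          rw [h8, sum_range_succ]
          have h9 : t - 1 + 1 = t := by omega
          rw [h9]
          omega
        · have h8 : t + 1 - 1 = (t - 1) + 1 := by omega
          rw [h8, pow_succ]
          omega
      · right
        refine ⟨d + 1, by omega, by omega, ?_, ?_⟩
        · rw [sum_range_succ]
          have h9 : min l (2 ^ d) ≤ min l t := by
            rcases Nat.lt_or_ge d 3 with h10 | h10
            · have h11 : d = 2 := by omega
              subst h11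
              exact min_le_min le_rfl (by omega)
            · have h11 : min l t = l := min_eq_left (by omega)
              rw [h11]
              exact min_le_left _ _
          omega
        · rw [pow_succ]
          omega

theorem seq_bound (h2 : ∀ v : V, v + v = 0) (n l : ℕ) (hl : l ≤ 5) (hn : 1 ≤ n)
    (hx : ∀ i < n, ∀ j < n, x i = x j → i = j) (D : Finset V)
    (hD : ∀ i j, i < j → j < n → j ≤ i + l → x i + x j ∈ D) :
    ∑ k ∈ range (Nat.clog 2 n), min l (2 ^ k) ≤ D.card := by
  have hsub : Dt x l n ⊆ D := by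
    intro v hv
    obtain ⟨i, j, h1, h3, h4, rfl⟩ := (mem_Dt x).1 hv
    exact hD i j h1 h3 h4
  refine le_trans ?_ (card_le_card hsub)
  rcases invariant x h2 hl hx n hn le_rfl with ⟨_, h4, _⟩ | ⟨d, h3, _, h5, h6⟩
  · exact (num_two hl hn).trans h4
  · refine le_trans ?_ h5
    have h7 : n ≤ (Et x n).card := by
      have h8 : ((range n).image fun i => x i + x 0) ⊆ Et x n := by
        intro v hv
        obtain ⟨i, hi, rfl⟩ := mem_image.1 hv
        rw [mem_range] at hi
        by_cases h0 : i = 0
        · subst h0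
          exact (mem_Et x).2 ⟨∅, empty_subset _, by simp, by rw [sum_empty, h2]⟩
        · refine (mem_Et x).2 ⟨{i, 0}, ?_, ?_, ?_⟩
          · intro a ha
            rw [mem_insert, mem_singleton] at ha
            rw [mem_range]
            omega
          · rw [card_pair h0]
            exact even_two
          · rw [sum_pair h0]
      have h9 : ((range n).image fun i => x i + x 0).card = n := by
        rw [card_image_of_injOn, card_range]
        intro i hi j hj hij
        rw [mem_coe, mem_range] at hi hj
        exact hx i hi j hj (add_right_cancel hij)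
      exact h9.symm.le.trans (card_le_card h8)
    exact sum_le_sum_of_subset (range_mono (Nat.clog_le_of_le_pow (h7.trans h6)))

end concl

end seq

end Pool.Agent.H625J.PPSeq
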